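import Pool.Agent.X151.QG.Base

/-!
Equilateral complete bipartite graphs: every point is a hot spot.
-/

namespace Pool.Agent.Results.MP_630a53_an.BipartiteHot

open Set Pool.Agent.X151.QG

/-- The edge `e` joins the vertices `a` and `b` (in one of the two orientations). -/
def Joins (Γ : MetricGraph) (e : Γ.E) (a b : Γ.V) : Prop :=
  (Γ.src e = a ∧ Γ.tgt e = b) ∨ (Γ.src e = b ∧ Γ.tgt e = a)

/-- `Γ` and `Γ'` are isomorphic: bijections of the vertices and of the edges that respect the ends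
of the edges (up to their orientation) and the lengths. -/
def IsIso (Γ Γ' : MetricGraph) : Prop :=
  ∃ (φ : Γ.V ≃ Γ'.V) (η : Γ.E ≃ Γ'.E), ∀ e, Γ'.len (η e) = Γ.len e ∧
    Joins Γ' (η e) (φ (Γ.src e)) (φ (Γ.tgt e))

/-- `Γ'` is obtained from `Γ` by inserting a vertex of degree two (`φ none`) in the edge `e₀`,
which is cut into the two edges `η (some e₀)` and `η none`. -/
def IsSubdivision (Γ Γ' : MetricGraph) : Prop :=
  ∃ (e₀ : Γ.E) (φ : Option Γ.V ≃ Γ'.V) (η : Option Γ.E ≃ Γ'.E),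
    (∀ e, e ≠ e₀ → Γ'.len (η (some e)) = Γ.len e ∧
      Joins Γ' (η (some e)) (φ (some (Γ.src e))) (φ (some (Γ.tgt e)))) ∧
    Joins Γ' (η (some e₀)) (φ (some (Γ.src e₀))) (φ none) ∧
    Joins Γ' (η none) (φ none) (φ (some (Γ.tgt e₀))) ∧
    Γ'.len (η (some e₀)) + Γ'.len (η none) = Γ.len e₀

/-- Two graphs are the same metric space: the equivalence relation generated by isomorphisms and
by inserting (or removing) vertices of degree two. -/
def Same : MetricGraph → MetricGraph → Prop :=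
  Relation.EqvGen (fun Γ Γ' => IsIso Γ Γ' ∨ IsSubdivision Γ Γ')

open Classical in
/-- The degree of a vertex; loops count twice. -/
noncomputable def deg (Γ : MetricGraph) (v : Γ.V) : ℕ :=
  ∑ e, ((if Γ.src e = v then 1 else 0) + (if Γ.tgt e = v then 1 else 0))

open Classical in
/-- The number of vertices of degree `d`. -/
noncomputable def cnt (Γ : MetricGraph) (d : ℕ) : ℕ := ∑ v, if deg Γ v = d then 1 else 0

open Classical in
theorem joins_deg {Γ : MetricGraph} {e : Γ.E} {a b : Γ.V} (h : Joins Γ e a b) (v : Γ.V) :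
    ((if Γ.src e = v then 1 else 0) + (if Γ.tgt e = v then 1 else 0) : ℕ) =
      (if a = v then 1 else 0) + (if b = v then 1 else 0) := by
  rcases h with ⟨h1, h2⟩ | ⟨h1, h2⟩
  · rw [h1, h2]
  · rw [h1, h2, add_comm]

theorem cnt_iso {Γ Γ' : MetricGraph} (h : IsIso Γ Γ') (d : ℕ) : cnt Γ d = cnt Γ' d := by
  classical
  obtain ⟨φ, η, h⟩ := h
  have hdeg : ∀ v, deg Γ' (φ v) = deg Γ v := by
    intro v
    unfold deg
    rw [← η.sum_comp]
    refine Finset.sum_congr rfl fun e _ => ?_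
    rw [joins_deg (h e).2]
    simp only [EmbeddingLike.apply_eq_iff_eq]
  unfold cnt
  rw [← φ.sum_comp]
  simp only [hdeg]

theorem cnt_subdiv {Γ Γ' : MetricGraph} (h : IsSubdivision Γ Γ') {d : ℕ} (hd : d ≠ 2) :
    cnt Γ d = cnt Γ' d := by
  classical
  obtain ⟨e₀, φ, η, h1, h2, h3, -⟩ := h
  have hdeg : ∀ v, deg Γ' (φ (some v)) = deg Γ v := by
    intro v
    unfold deg
    rw [← η.sum_comp, Fintype.sum_option, joins_deg h3,
      ← Finset.add_sum_erase Finset.univ _ (Finset.mem_univ e₀), joins_deg h2,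
      ← Finset.add_sum_erase Finset.univ
        (fun e => (if Γ.src e = v then 1 else 0) + (if Γ.tgt e = v then 1 else 0))
        (Finset.mem_univ e₀)]
    have : ∑ x ∈ Finset.univ.erase e₀, ((if Γ'.src (η (some x)) = φ (some v) then 1 else 0) +
        (if Γ'.tgt (η (some x)) = φ (some v) then 1 else 0)) =
        ∑ x ∈ Finset.univ.erase e₀, ((if Γ.src x = v then 1 else 0) +
          (if Γ.tgt x = v then 1 else 0)) := by
      refine Finset.sum_congr rfl fun e he => ?_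
      rw [joins_deg (h1 e (Finset.ne_of_mem_erase he)).2]
      simp only [EmbeddingLike.apply_eq_iff_eq, Option.some.injEq]
    rw [this]
    simp only [EmbeddingLike.apply_eq_iff_eq, Option.some.injEq, reduceCtorEq, if_false]
    ring
  have hdeg0 : deg Γ' (φ none) = 2 := by
    unfold deg
    rw [← η.sum_comp, Fintype.sum_option, joins_deg h3,
      ← Finset.add_sum_erase Finset.univ _ (Finset.mem_univ e₀), joins_deg h2]
    have : ∑ x ∈ Finset.univ.erase e₀, ((if Γ'.src (η (some x)) = φ none then 1 else 0) +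
        (if Γ'.tgt (η (some x)) = φ none then 1 else 0)) = 0 := by
      apply Finset.sum_eq_zero
      intro e he
      rw [joins_deg (h1 e (Finset.ne_of_mem_erase he)).2]
      simp
    rw [this]
    simp
  unfold cnt
  rw [← φ.sum_comp, Fintype.sum_option, hdeg0, if_neg (Ne.symm hd), zero_add]
  simp only [hdeg]

theorem cnt_same {Γ Γ' : MetricGraph} (h : Same Γ Γ') {d : ℕ} (hd : d ≠ 2) :
    cnt Γ d = cnt Γ' d := by
  induction h with
  | rel _ _ h =>
    rcases h with h | h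
    · exact cnt_iso h d
    · exact cnt_subdiv h hd
  | refl _ => rfl
  | symm _ _ _ ih => exact ih.symm
  | trans _ _ _ _ _ ih1 ih2 => exact ih1.trans ih2

/-- The equilateral pumpkin: two vertices joined by `k` edges of length `ℓ`. -/
noncomputable abbrev pumpkin (k : ℕ) (hk : 1 ≤ k) (ℓ : ℝ) (hℓ : 0 < ℓ) : MetricGraph where
  V := Bool
  E := Fin k
  src := fun _ => false
  tgt := fun _ => true
  len := fun _ => ℓ
  len_pos := fun _ => hℓ
  nonempty := ⟨⟨0, hk⟩⟩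
  conn := by
    intro v w
    rcases v <;> rcases w
    · exact Relation.ReflTransGen.refl
    · exact Relation.ReflTransGen.single ⟨⟨0, hk⟩, Or.inl ⟨rfl, rfl⟩⟩
    · exact Relation.ReflTransGen.single ⟨⟨0, hk⟩, Or.inr ⟨rfl, rfl⟩⟩
    · exact Relation.ReflTransGen.refl

/-- The equilateral complete graph on `N` vertices, all edges of length `ℓ`. -/
noncomputable abbrev complete (N : ℕ) (hN : 2 ≤ N) (ℓ : ℝ) (hℓ : 0 < ℓ) : MetricGraph where
  V := Fin N
  E := {p : Fin N × Fin N // p.1 < p.2}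
  src := fun e => e.1.1
  tgt := fun e => e.1.2
  len := fun _ => ℓ
  len_pos := fun _ => hℓ
  nonempty := ⟨⟨(⟨0, by omega⟩, ⟨1, by omega⟩), by simp⟩⟩
  conn := by
    intro v w
    rcases lt_trichotomy v w with h | h | h
    · exact Relation.ReflTransGen.single ⟨⟨(v, w), h⟩, Or.inl ⟨rfl, rfl⟩⟩
    · rw [h]
    · exact Relation.ReflTransGen.single ⟨⟨(w, v), h⟩, Or.inr ⟨rfl, rfl⟩⟩

/-- The equilateral complete bipartite graph `K_{m,n}`, all edges of length `1`. -/
noncomputable abbrev bip (m n : ℕ) (hm : 1 ≤ m) (hn : 1 ≤ n) : MetricGraph where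
  V := Fin m ⊕ Fin n
  E := Fin m × Fin n
  src := fun e => Sum.inl e.1
  tgt := fun e => Sum.inr e.2
  len := fun _ => 1
  len_pos := fun _ => one_pos
  nonempty := ⟨(⟨0, hm⟩, ⟨0, hn⟩)⟩
  conn := by
    have h1 : ∀ v : Fin m ⊕ Fin n, Relation.ReflTransGen
      (fun a b : Fin m ⊕ Fin n => ∃ e : Fin m × Fin n,
      (Sum.inl e.1 = a ∧ Sum.inr e.2 = b) ∨ (Sum.inl e.1 = b ∧ Sum.inr e.2 = a)) v
      (Sum.inl ⟨0, hm⟩) := by
      intro v
      rcases v with i | j
      · exact (Relation.ReflTransGen.single ⟨(i, ⟨0, hn⟩), Or.inl ⟨rfl, rfl⟩⟩).tail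
          (b := Sum.inr ⟨0, hn⟩) ⟨(⟨0, hm⟩, ⟨0, hn⟩), Or.inr ⟨rfl, rfl⟩⟩
      · exact Relation.ReflTransGen.single ⟨(⟨0, hm⟩, j), Or.inr ⟨rfl, rfl⟩⟩
    have h2 : ∀ v : Fin m ⊕ Fin n, Relation.ReflTransGen
      (fun a b : Fin m ⊕ Fin n => ∃ e : Fin m × Fin n,
      (Sum.inl e.1 = a ∧ Sum.inr e.2 = b) ∨ (Sum.inl e.1 = b ∧ Sum.inr e.2 = a))
      (Sum.inl ⟨0, hm⟩) v := by
      intro v
      rcases v with i | j
      · exact (Relation.ReflTransGen.single ⟨(⟨0, hm⟩, ⟨0, hn⟩), Or.inl ⟨rfl, rfl⟩⟩).tail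
          (b := Sum.inr ⟨0, hn⟩) ⟨(i, ⟨0, hn⟩), Or.inr ⟨rfl, rfl⟩⟩
      · exact Relation.ReflTransGen.single ⟨(⟨0, hm⟩, j), Or.inl ⟨rfl, rfl⟩⟩
    intro v w
    exact (h1 v).trans (h2 w)

theorem cnt_pumpkin (k : ℕ) (hk : 1 ≤ k) (ℓ : ℝ) (hℓ : 0 < ℓ) (d : ℕ) :
    cnt (pumpkin k hk ℓ hℓ) d ≤ 2 := by
  classical
  unfold cnt
  calc ∑ v : Bool, (if deg (pumpkin k hk ℓ hℓ) v = d then 1 else 0) ≤ ∑ v : Bool, 1 := by
        apply Finset.sum_le_sum
        intro v _
        split_ifs <;> norm_num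
    _ = 2 := by simp

theorem deg_complete (N : ℕ) (hN : 2 ≤ N) (ℓ : ℝ) (hℓ : 0 < ℓ) (v : Fin N) :
    deg (complete N hN ℓ hℓ) v = N - 1 := by
  classical
  unfold deg
  have h : ∀ F : Fin N × Fin N → ℕ, ∑ e : {p : Fin N × Fin N // p.1 < p.2}, F e.1 =
      ∑ a : Fin N, ∑ b : Fin N, if a < b then F (a, b) else 0 := by
    intro F
    rw [← Finset.sum_subtype (Finset.univ.filter fun p : Fin N × Fin N => p.1 < p.2)
      (by simp) (fun p => F p), Finset.sum_filter, Fintype.sum_prod_type]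
  have h' := h (fun p => (if p.1 = v then 1 else 0) + (if p.2 = v then 1 else 0))
  have e1 : ∑ a : Fin N, ∑ b : Fin N, (if a < b then ((if a = v then 1 else 0) +
      (if b = v then 1 else 0) : ℕ) else 0) =
      (∑ b : Fin N, if v < b then 1 else 0) + ∑ a : Fin N, if a < v then 1 else 0 := by
    have : ∀ a b : Fin N, (if a < b then ((if a = v then 1 else 0) +
      (if b = v then 1 else 0) : ℕ) else 0) =
      (if a = v then (if a < b then 1 else 0) else 0) +
        (if b = v then (if a < b then 1 else 0) else 0) := by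
      intro a b
      split_ifs <;> rfl
    simp_rw [this, Finset.sum_add_distrib]
    congr 1
    · rw [Finset.sum_comm]
      simp
    · simp
  rw [e1, ← Finset.sum_add_distrib] at h'
  have e2 : ∑ b : Fin N, ((if v < b then 1 else 0) + (if b < v then 1 else 0) : ℕ) = N - 1 := by
    have : ∀ b : Fin N, ((if v < b then 1 else 0) + (if b < v then 1 else 0) : ℕ) =
        if b ∈ Finset.univ.erase v then 1 else 0 := by
      intro b
      rcases lt_trichotomy v b with h | h | h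
      · simp [h, h.ne', not_lt.2 h.le]
      · simp [h]
      · simp [h, h.ne, not_lt.2 h.le]
    simp_rw [this]
    rw [Finset.sum_ite_mem, Finset.univ_inter, Finset.sum_const,
      Finset.card_erase_of_mem (Finset.mem_univ v)]
    simp
  rw [e2] at h'
  convert h'

theorem cnt_complete (N : ℕ) (hN : 2 ≤ N) (ℓ : ℝ) (hℓ : 0 < ℓ) (d : ℕ) :
    cnt (complete N hN ℓ hℓ) d = if N - 1 = d then N else 0 := by
  classical
  unfold cnt
  have : ∀ v : Fin N, (if deg (complete N hN ℓ hℓ) v = d then 1 else 0 : ℕ) =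
      if N - 1 = d then 1 else 0 := by
    intro v
    rw [deg_complete]
  have h2 : ∑ v : Fin N, (if deg (complete N hN ℓ hℓ) v = d then 1 else 0 : ℕ) =
      ∑ v : Fin N, if N - 1 = d then 1 else 0 := Finset.sum_congr rfl fun v _ => this v
  rw [h2]
  simp

theorem deg_bip_inl (m n : ℕ) (hm : 1 ≤ m) (hn : 1 ≤ n) (i : Fin m) :
    deg (bip m n hm hn) (Sum.inl i) = n := by
  classical
  unfold deg
  have : ∑ e : Fin m × Fin n, ((if (Sum.inl e.1 : Fin m ⊕ Fin n) = Sum.inl i then 1 else 0) +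
    (if (Sum.inr e.2 : Fin m ⊕ Fin n) = Sum.inl i then 1 else 0) : ℕ) = n := by
    rw [Fintype.sum_prod_type]
    simp only [Sum.inl.injEq, reduceCtorEq, if_false, add_zero, Finset.sum_const,
      Finset.card_univ, Fintype.card_fin, smul_eq_mul]
    simp
  convert this

theorem deg_bip_inr (m n : ℕ) (hm : 1 ≤ m) (hn : 1 ≤ n) (j : Fin n) :
    deg (bip m n hm hn) (Sum.inr j) = m := by
  classical
  unfold deg
  have : ∑ e : Fin m × Fin n, ((if (Sum.inl e.1 : Fin m ⊕ Fin n) = Sum.inr j then 1 else 0) +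
    (if (Sum.inr e.2 : Fin m ⊕ Fin n) = Sum.inr j then 1 else 0) : ℕ) = m := by
    rw [Fintype.sum_prod_type]
    simp
  convert this

theorem cnt_bip (m n : ℕ) (hm : 1 ≤ m) (hn : 1 ≤ n) (d : ℕ) :
    cnt (bip m n hm hn) d = (if n = d then m else 0) + (if m = d then n else 0) := by
  classical
  unfold cnt
  have : ∑ v : Fin m ⊕ Fin n, (if deg (bip m n hm hn) v = d then 1 else 0 : ℕ) =
      (if n = d then m else 0) + (if m = d then n else 0) := by
    rw [Fintype.sum_sum_type]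
    simp only [deg_bip_inl, deg_bip_inr]
    congr 1
    · split_ifs <;> simp
    · split_ifs <;> simp
  exact this

theorem not_pumpkin (m n : ℕ) (hm : 3 ≤ m) (hn : 3 ≤ n) (k : ℕ) (hk : 1 ≤ k) (ℓ : ℝ)
    (hℓ : 0 < ℓ) : ¬ Same (bip m n (by omega) (by omega)) (pumpkin k hk ℓ hℓ) := by
  intro h
  have h1 := cnt_same h (d := n) (by omega)
  have h2 := cnt_pumpkin k hk ℓ hℓ n
  rw [← h1, cnt_bip, if_pos rfl] at h2
  omega

theorem not_complete (m n : ℕ) (hm : 3 ≤ m) (hn : 3 ≤ n) (N : ℕ) (hN : 2 ≤ N) (ℓ : ℝ)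
    (hℓ : 0 < ℓ) : ¬ Same (bip m n (by omega) (by omega)) (complete N hN ℓ hℓ) := by
  intro h
  have h1 := cnt_same h (d := n) (by omega)
  have h2 := cnt_same h (d := m) (by omega)
  rw [cnt_bip, cnt_complete] at h1 h2
  split_ifs at h1 h2 <;> omega

theorem bip_sin (m n : ℕ) (hm : 1 ≤ m) (hn : 1 ≤ n) {k : ℝ} (h0 : 0 < k)
    (h1 : k ≤ Real.pi / 2) (e : (bip m n hm hn).E) :
    Real.sin (k * (bip m n hm hn).len e) ≠ 0 := by
  have : (bip m n hm hn).len e = 1 := rfl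
  rw [this, mul_one]
  exact (Real.sin_pos_of_pos_of_lt_pi h0 (by linarith [Real.pi_pos])).ne'

theorem disc_inl (m n : ℕ) (hm : 1 ≤ m) (hn : 1 ≤ n) {k : ℝ} (hs : Real.sin k ≠ 0)
    (u : Fin m ⊕ Fin n → ℝ) (i : Fin m) : Disc (bip m n hm hn) (fun _ => 0) k u (Sum.inl i) ↔
      ∑ j, u (Sum.inr j) = n * (Real.cos k * u (Sum.inl i)) := by
  have : Disc (bip m n hm hn) (fun _ => 0) k u (Sum.inl i) ↔
    (∑ e : Fin m × Fin n, if (Sum.inl e.1 : Fin m ⊕ Fin n) = Sum.inl i then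
      (u (Sum.inr e.2) - Real.cos (k * 1) * u (Sum.inl i)) / Real.sin (k * 1) else 0) +
    (∑ e : Fin m × Fin n, if (Sum.inr e.2 : Fin m ⊕ Fin n) = Sum.inl i then
      (u (Sum.inl e.1) - Real.cos (k * 1) * u (Sum.inl i)) / Real.sin (k * 1) else 0) =
      0 * u (Sum.inl i) / k :=
    letI : DecidableEq (bip m n hm hn).V := inferInstanceAs (DecidableEq (Fin m ⊕ Fin n))
    disc_iff (Γ := bip m n hm hn) _ k u (Sum.inl i)
  rw [this, Fintype.sum_prod_type]
  simp only [Sum.inl.injEq, reduceCtorEq, if_false, Finset.sum_const_zero, add_zero, zero_mul,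
    zero_div, mul_one]
  have e : ∀ a : Fin m, (∑ b : Fin n, if a = i then
      (u (Sum.inr b) - Real.cos k * u (Sum.inl i)) / Real.sin k else 0) =
      if a = i then ∑ b : Fin n, (u (Sum.inr b) - Real.cos k * u (Sum.inl i)) / Real.sin k
      else 0 := by
    intro a; split_ifs <;> simp
  simp_rw [e]
  rw [Finset.sum_ite_eq' Finset.univ i, if_pos (Finset.mem_univ _), ← Finset.sum_div,
    div_eq_zero_iff, or_iff_left hs, Finset.sum_sub_distrib, sub_eq_zero]
  simp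

theorem disc_inr (m n : ℕ) (hm : 1 ≤ m) (hn : 1 ≤ n) {k : ℝ} (hs : Real.sin k ≠ 0)
    (u : Fin m ⊕ Fin n → ℝ) (j : Fin n) : Disc (bip m n hm hn) (fun _ => 0) k u (Sum.inr j) ↔
      ∑ i, u (Sum.inl i) = m * (Real.cos k * u (Sum.inr j)) := by
  have : Disc (bip m n hm hn) (fun _ => 0) k u (Sum.inr j) ↔
    (∑ e : Fin m × Fin n, if (Sum.inl e.1 : Fin m ⊕ Fin n) = Sum.inr j then
      (u (Sum.inr e.2) - Real.cos (k * 1) * u (Sum.inr j)) / Real.sin (k * 1) else 0) +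
    (∑ e : Fin m × Fin n, if (Sum.inr e.2 : Fin m ⊕ Fin n) = Sum.inr j then
      (u (Sum.inl e.1) - Real.cos (k * 1) * u (Sum.inr j)) / Real.sin (k * 1) else 0) =
      0 * u (Sum.inr j) / k :=
    letI : DecidableEq (bip m n hm hn).V := inferInstanceAs (DecidableEq (Fin m ⊕ Fin n))
    disc_iff (Γ := bip m n hm hn) _ k u (Sum.inr j)
  rw [this, Fintype.sum_prod_type]
  simp only [Sum.inr.injEq, reduceCtorEq, if_false, Finset.sum_const_zero, zero_add, zero_mul,
    zero_div, mul_one]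
  rw [Fintype.sum_prod_type]
  simp only [Finset.sum_ite_eq', Finset.mem_univ, if_true]
  rw [← Finset.sum_div,
    div_eq_zero_iff, or_iff_left hs, Finset.sum_sub_distrib, sub_eq_zero]
  simp

theorem no_low (m n : ℕ) (hm : 1 ≤ m) (hn : 1 ≤ n) {k : ℝ} (h0 : 0 < k)
    (h1 : k < Real.pi / 2) (f : (bip m n hm hn).Pt → ℝ)
    (hf : (bip m n hm hn).IsEigen (fun _ => 0) (k ^ 2) f) : False := by
  have hp := Real.pi_pos
  obtain ⟨-, ⟨v, hv⟩, g3⟩ := disc_of_eigen h0.ne' (bip_sin m n hm hn h0 h1.le) hf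
  obtain ⟨u, hu⟩ : ∃ u : Fin m ⊕ Fin n → ℝ, u = fun v => f ((bip m n hm hn).vtx v) := ⟨_, rfl⟩
  have hv' : u v ≠ 0 := by rw [hu]; exact hv
  have g3' : ∀ v, Disc (bip m n hm hn) (fun _ => 0) k u v := by rw [hu]; exact g3
  have hc : 0 < Real.cos k := Real.cos_pos_of_mem_Ioo ⟨by linarith, h1⟩
  have hs : 0 < Real.sin k := Real.sin_pos_of_pos_of_lt_pi h0 (by linarith)
  have hc1 : Real.cos k < 1 := by nlinarith [Real.sin_sq_add_cos_sq k]
  have a1 := fun i => (disc_inl m n hm hn hs.ne' u i).1 (g3' (Sum.inl i))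
  have a2 := fun j => (disc_inr m n hm hn hs.ne' u j).1 (g3' (Sum.inr j))
  have hm' : (0 : ℝ) < m := by exact_mod_cast hm
  have hn' : (0 : ℝ) < n := by exact_mod_cast hn
  set SA := ∑ i, u (Sum.inl i)
  set SB := ∑ j, u (Sum.inr j)
  set c := Real.cos k
  have b1 : ∀ i, u (Sum.inl i) = SB / (n * c) := by
    intro i
    rw [a1 i]; field_simp
  have b2 : ∀ j, u (Sum.inr j) = SA / (m * c) := by
    intro j
    rw [a2 j]; field_simp
  have c1 : SA = m * (SB / (n * c)) := by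
    have : SA = ∑ i : Fin m, SB / (n * c) := Finset.sum_congr rfl fun i _ => b1 i
    rw [this]; simp
  have c2 : SB = n * (SA / (m * c)) := by
    have : SB = ∑ j : Fin n, SA / (m * c) := Finset.sum_congr rfl fun j _ => b2 j
    rw [this]; simp
  have c3 : SA * c ^ 2 = SA := by
    have h4 : SA * c = m * SB / n := by
      conv_lhs => rw [c1]
      field_simp
    have h5 : SB * c = n * SA / m := by
      conv_lhs => rw [c2]
      field_simp
    calc SA * c ^ 2 = (SA * c) * c := by ring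
      _ = m * (SB * c) / n := by rw [h4]; ring
      _ = SA := by rw [h5]; field_simp
  have c4 : SA = 0 := by
    have : SA * (c ^ 2 - 1) = 0 := by linarith
    rcases mul_eq_zero.1 this with h | h
    · exact h
    · nlinarith
  have c5 : SB = 0 := by rw [c2, c4]; simp
  apply hv'
  rcases v with i | j
  · rw [b1 i, c5, zero_div]
  · rw [b2 j, c4, zero_div]

/-- Vertex values: `cos θ` at `i₀`, `-cos θ` at `i₁`, `sin θ` at `j₀`, `-sin θ` at `j₁`. -/
noncomputable def val {m n : ℕ} (θ : ℝ) (i₀ i₁ : Fin m) (j₀ j₁ : Fin n) : Fin m ⊕ Fin n → ℝ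
  | Sum.inl i => Real.cos θ * ((if i = i₀ then 1 else 0) - (if i = i₁ then 1 else 0))
  | Sum.inr j => Real.sin θ * ((if j = j₀ then 1 else 0) - (if j = j₁ then 1 else 0))

theorem val_eigen {m n : ℕ} (hm : 1 ≤ m) (hn : 1 ≤ n) (θ : ℝ) {i₀ i₁ : Fin m} {j₀ j₁ : Fin n}
    (hi : i₀ ≠ i₁) (hj : j₀ ≠ j₁) :
    (bip m n hm hn).IsEigen (fun _ => 0) ((Real.pi / 2) ^ 2)
      (lift (bip m n hm hn) (Real.pi / 2) (val θ i₀ i₁ j₀ j₁)) := by
  have hp := Real.pi_pos
  apply eigen_of_disc _ (by positivity) (bip_sin m n hm hn (by positivity) le_rfl)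
  · by_cases h : Real.cos θ = 0
    · refine ⟨Sum.inr j₀, ?_⟩
      intro h'
      have h'' : Real.sin θ = 0 := by simpa [val, hj] using h'
      have := Real.sin_sq_add_cos_sq θ
      rw [h, h''] at this
      norm_num at this
    · refine ⟨Sum.inl i₀, ?_⟩
      simpa [val, hi] using h
  · have hs : Real.sin (Real.pi / 2) ≠ 0 := by rw [Real.sin_pi_div_two]; exact one_ne_zero
    intro v
    rcases v with i | j
    · apply (disc_inl m n hm hn hs _ i).2
      rw [Real.cos_pi_div_two, zero_mul, mul_zero]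
      simp only [val]
      rw [← Finset.mul_sum, Finset.sum_sub_distrib]
      simp
    · apply (disc_inr m n hm hn hs _ j).2
      rw [Real.cos_pi_div_two, zero_mul, mul_zero]
      simp only [val]
      rw [← Finset.mul_sum, Finset.sum_sub_distrib]
      simp

theorem ind_le {α : Type} [DecidableEq α] (a b c : α) :
    ((if a = b then 1 else 0 : ℝ) - (if a = c then 1 else 0)) ^ 2 ≤ 1 := by
  split_ifs <;> norm_num

theorem val_inl_le {m n : ℕ} (θ : ℝ) (i₀ i₁ : Fin m) (j₀ j₁ : Fin n) (i : Fin m) :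
    val θ i₀ i₁ j₀ j₁ (Sum.inl i) ^ 2 ≤ Real.cos θ ^ 2 := by
  simp only [val]
  rw [mul_pow]
  exact mul_le_of_le_one_right (sq_nonneg _) (ind_le _ _ _)

theorem val_inr_le {m n : ℕ} (θ : ℝ) (i₀ i₁ : Fin m) (j₀ j₁ : Fin n) (j : Fin n) :
    val θ i₀ i₁ j₀ j₁ (Sum.inr j) ^ 2 ≤ Real.sin θ ^ 2 := by
  simp only [val]
  rw [mul_pow]
  exact mul_le_of_le_one_right (sq_nonneg _) (ind_le _ _ _)

theorem val_le {m n : ℕ} (hm : 1 ≤ m) (hn : 1 ≤ n) (θ : ℝ) (i₀ i₁ : Fin m) (j₀ j₁ : Fin n)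
    (q : (bip m n hm hn).Pt) :
    lift (bip m n hm hn) (Real.pi / 2) (val θ i₀ i₁ j₀ j₁) q ≤ 1 := by
  have hp := Real.pi_pos
  have hcs := Real.sin_sq_add_cos_sq θ
  have k1 := val_inl_le θ i₀ i₁ j₀ j₁
  have k2 := val_inr_le θ i₀ i₁ j₀ j₁
  rcases pt_cases q with ⟨v, rfl⟩ | ⟨e, x, hx0, hx1, rfl⟩
  · rw [lift_vtx]
    rcases v with i | j
    · have := k1 i
      nlinarith [sq_nonneg (Real.sin θ)]
    · have := k2 j
      nlinarith [sq_nonneg (Real.cos θ)]
  · rw [lift_pt _ _ e (bip_sin m n hm hn (by positivity) le_rfl e) ⟨hx0.le, hx1.le⟩]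
    have hl : (bip m n hm hn).len e = 1 := rfl
    rw [hl, mul_one, Real.sin_pi_div_two, div_one, mul_sub, mul_one, Real.sin_pi_div_two_sub]
    have hcs' := Real.sin_sq_add_cos_sq (Real.pi / 2 * x)
    have a1 := k1 e.1
    have a2 := k2 e.2
    show val θ i₀ i₁ j₀ j₁ (Sum.inl e.1) * Real.cos (Real.pi / 2 * x) +
      val θ i₀ i₁ j₀ j₁ (Sum.inr e.2) * Real.sin (Real.pi / 2 * x) ≤ 1
    set A := val θ i₀ i₁ j₀ j₁ (Sum.inl e.1)
    set B := val θ i₀ i₁ j₀ j₁ (Sum.inr e.2)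
    set C := Real.cos (Real.pi / 2 * x)
    set S := Real.sin (Real.pi / 2 * x)
    nlinarith [sq_nonneg (A - C), sq_nonneg (B - S)]

theorem val_at {m n : ℕ} (hm : 1 ≤ m) (hn : 1 ≤ n) {i₀ i₁ : Fin m} {j₀ j₁ : Fin n}
    (hi : i₀ ≠ i₁) (hj : j₀ ≠ j₁) {x : ℝ} (h0 : 0 ≤ x) (h1 : x ≤ 1) :
    lift (bip m n hm hn) (Real.pi / 2) (val (Real.pi / 2 * x) i₀ i₁ j₀ j₁)
      ((bip m n hm hn).pt (i₀, j₀) x) = 1 := by
  have hp := Real.pi_pos
  rw [lift_pt _ _ (i₀, j₀) (bip_sin m n hm hn (by positivity) le_rfl _)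
    ⟨h0, show x ≤ (bip m n hm hn).len (i₀, j₀) from h1⟩]
  have hl : (bip m n hm hn).len (i₀, j₀) = 1 := rfl
  rw [hl, mul_one, Real.sin_pi_div_two, div_one, mul_sub, mul_one, Real.sin_pi_div_two_sub]
  show val (Real.pi / 2 * x) i₀ i₁ j₀ j₁ (Sum.inl i₀) * Real.cos (Real.pi / 2 * x) +
      val (Real.pi / 2 * x) i₀ i₁ j₀ j₁ (Sum.inr j₀) * Real.sin (Real.pi / 2 * x) = 1
  simp only [val, if_pos, if_neg hi, if_neg hj]
  have := Real.sin_sq_add_cos_sq (Real.pi / 2 * x)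
  nlinarith

/-- For all `m, n ≥ 3` every point of the equilateral complete bipartite graph `K_{m,n}` (with
standard vertex conditions) is a point at which some second eigenfunction attains its global
maximum or minimum, and the graph is neither an equilateral pumpkin nor an equilateral complete
graph. -/
theorem result (m n : ℕ) (hm : 3 ≤ m) (hn : 3 ≤ n) :
    (bip m n (by omega) (by omega)).M (fun _ => 0) = Set.univ ∧
    (∀ (k : ℕ) (hk : 1 ≤ k) (ℓ : ℝ) (hℓ : 0 < ℓ),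
      ¬ Same (bip m n (by omega) (by omega)) (pumpkin k hk ℓ hℓ)) ∧
    (∀ (N : ℕ) (hN : 2 ≤ N) (ℓ : ℝ) (hℓ : 0 < ℓ),
      ¬ Same (bip m n (by omega) (by omega)) (complete N hN ℓ hℓ)) := by
  refine ⟨?_, not_pumpkin m n hm hn, not_complete m n hm hn⟩
  have hp := Real.pi_pos
  have hm1 : 1 ≤ m := by omega
  have hn1 : 1 ≤ n := by omega
  have hoth : ∀ {N : ℕ}, 3 ≤ N → ∀ i : Fin N, ∃ j : Fin N, i ≠ j := by
    intro N hN i
    by_cases h : i = ⟨0, by omega⟩
    · exact ⟨⟨1, by omega⟩, by rw [h]; simp [Fin.ext_iff]⟩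
    · exact ⟨⟨0, by omega⟩, h⟩
  have h2 : (bip m n hm1 hn1).IsSecond (fun _ => 0) ((Real.pi / 2) ^ 2) := by
    apply second_of_std (by positivity)
    · obtain ⟨i₁, hi⟩ := hoth hm ⟨0, by omega⟩
      obtain ⟨j₁, hj⟩ := hoth hn ⟨0, by omega⟩
      exact ⟨_, val_eigen hm1 hn1 0 hi hj⟩
    · intro k hk0 hk1 f hf
      exact no_low m n hm1 hn1 hk0 hk1 f hf
  have key : ∀ (i₀ : Fin m) (j₀ : Fin n) (x : ℝ), 0 ≤ x → x ≤ 1 →
      (bip m n hm1 hn1).pt (i₀, j₀) x ∈ (bip m n hm1 hn1).M (fun _ => 0) := by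
    intro i₀ j₀ x h0 h1
    obtain ⟨i₁, hi⟩ := hoth hm i₀
    obtain ⟨j₁, hj⟩ := hoth hn j₀
    refine ⟨_, _, h2, val_eigen hm1 hn1 (Real.pi / 2 * x) hi hj, Or.inl fun q => ?_⟩
    rw [val_at hm1 hn1 hi hj h0 h1]
    exact val_le hm1 hn1 _ _ _ _ _ q
  rw [Set.eq_univ_iff_forall]
  intro p
  rcases pt_cases p with ⟨v, rfl⟩ | ⟨e, x, hx0, hx1, rfl⟩
  · rcases v with i | j
    · have := key i ⟨0, by omega⟩ 0 le_rfl zero_le_one
      rwa [pt_zero] at this
    · have := key ⟨0, by omega⟩ j 1 zero_le_one le_rfl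
      have h3 := pt_len (Γ := bip m n hm1 hn1) (⟨0, by omega⟩, j)
      rw [← h3]
      exact this
  · exact key e.1 e.2 x hx0.le hx1.le

end Pool.Agent.Results.MP_630a53_an.BipartiteHot
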